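import Pool.Agent.Helper6.LP.St

/-!
# LP CHQ: Cauchy-Schwarz
-/

set_option autoImplicit false

namespace Pool.Agent.Helper53.LP

open Finset Filter
open Pool.Agent.Helper6.LP
open Pool.Agent.Helper98.LM (QQ)

private lemma ev_log (c d : ℝ) (hc : 0 < c) (n : ℕ) :
    ∀ᶠ x : ℝ in atTop, d * Real.log x ^ n ≤ c * x ^ (1 / 2 : ℝ) := by
  have h := isLittleO_log_rpow_rpow_atTop (n : ℝ) (by norm_num : (0 : ℝ) < 1 / 2)
  have hd : 0 < c / (|d| + 1) := by positivity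
  have h1 := h.bound hd
  filter_upwards [h1, eventually_ge_atTop (1 : ℝ)] with x hx hx1
  have hl : 0 ≤ Real.log x := Real.log_nonneg hx1
  rw [Real.rpow_natCast, Real.norm_of_nonneg (pow_nonneg hl n),
    Real.norm_of_nonneg (by positivity)] at hx
  have h2 : d * Real.log x ^ n ≤ (|d| + 1) * Real.log x ^ n :=
    mul_le_mul_of_nonneg_right (by linarith [le_abs_self d]) (pow_nonneg hl n)
  refine h2.trans ?_
  have h3 := mul_le_mul_of_nonneg_left hx (by positivity : (0 : ℝ) ≤ |d| + 1)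
  refine h3.trans (le_of_eq ?_)
  field_simp

/-- the counting by Cauchy-Schwarz -/
private lemma csq (M : ℕ) (X : ℕ → ℝ) (hX : ∀ m, 0 ≤ X m) [DecidablePred fun m : ℕ => 0 < X m] :
    (∑ m ∈ Icc 1 M, X m) ^ 2 ≤
      (((Icc 1 M).filter (fun m : ℕ => 0 < X m)).card : ℝ) * ∑ m ∈ Icc 1 M, X m ^ 2 := by
  have h1 : ∑ m ∈ (Icc 1 M).filter (fun m : ℕ => 0 < X m), X m = ∑ m ∈ Icc 1 M, X m := by
    refine sum_filter_of_ne fun m _ h => ?_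
    exact lt_of_le_of_ne (hX m) (Ne.symm h)
  rw [← h1]
  refine sq_sum_le_card_mul_sum_sq.trans ?_
  refine mul_le_mul_of_nonneg_left ?_ (by positivity)
  exact sum_le_sum_of_subset_of_nonneg (filter_subset _ _) fun _ _ _ => sq_nonneg _

private lemma VV_nonneg (p w P a y : ℕ) : 0 ≤ VV p w P a y := by
  unfold VV
  refine prod_nonneg fun l _ => ?_
  have h1 : ((SS P a y l).card : ℝ) ≤ l := by
    have := card_filter_le (range l) (fun s : ℕ => (l : ℤ) ∣ ff ((a : ℤ) + P * s) y)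
    rw [card_range] at this
    exact_mod_cast this
  have h2 : ((SS P a y l).card : ℝ) / l ≤ 1 := div_le_one_of_le₀ h1 (Nat.cast_nonneg _)
  linarith

private lemma XX_nonneg (A : ℝ) (p w P a r J m : ℕ) : 0 ≤ XX A p w P a r J m := by
  unfold XX
  exact sum_nonneg fun j _ => inv_nonneg.2 (VV_nonneg _ _ _ _ _)

/-- the final inequality -/
private lemma fin_ineq (N τ Λ S M J S1 S2 W1 W2 c₁ K L : ℝ) (hM : 0 < M) (hτ : 1 ≤ τ)
    (hN : 0 ≤ N) (hS0 : 0 ≤ S) (hSS : S * S = M) (hc₁ : 0 < c₁) (hK : 1 ≤ K) (hL : 1 ≤ L)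
    (hΛ : Λ = K * L ^ 2) (hJ : c₁ * L ^ 2 ≤ J) (hJτ : J ≤ 2 * τ) (e1 : 4 * K * L ^ 2 ≤ S)
    (e2 : 2 * K ^ 2 * L ^ 4 ≤ S) (w1 : W1 ≤ S) (w2 : W2 ≤ S)
    (h1 : (1 - 1 / 2) * (M * τ) - τ * Λ * W1 ≤ S1)
    (h2 : S2 ≤ (1 + 1 / 2) * (M * (τ * (τ + 1 / 2 * J + 1))) + 2 * (M * τ * Λ) +
      2 * (τ ^ 2 * Λ ^ 2 * W2))
    (h3 : S1 ^ 2 ≤ N * S2) : c₁ / (96 * c₁ + 64 * K) * M ≤ N := by
  have hΛ0 : 0 < Λ := by rw [hΛ]; positivity
  have hτ0 : 0 < τ := by linarith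
  have a1 : 4 * Λ * W1 ≤ M := by
    calc 4 * Λ * W1 ≤ 4 * Λ * S := mul_le_mul_of_nonneg_left w1 (by positivity)
      _ = (4 * K * L ^ 2) * S := by rw [hΛ]; ring
      _ ≤ S * S := mul_le_mul_of_nonneg_right e1 hS0
      _ = M := hSS
  have a2 : 2 * Λ ^ 2 * W2 ≤ M := by
    calc 2 * Λ ^ 2 * W2 ≤ 2 * Λ ^ 2 * S := mul_le_mul_of_nonneg_left w2 (by positivity)
      _ = (2 * K ^ 2 * L ^ 4) * S := by rw [hΛ]; ring
      _ ≤ S * S := mul_le_mul_of_nonneg_right e2 hS0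
      _ = M := hSS
  have b1 : M * τ / 4 ≤ S1 := by
    have : τ * Λ * W1 ≤ M * τ / 4 := by
      have := mul_le_mul_of_nonneg_left a1 hτ0.le
      linarith
    linarith
  have b2 : S2 ≤ M * (6 * τ ^ 2 + 2 * τ * Λ) := by
    have c1 : M * (τ * (τ + 1 / 2 * J + 1)) ≤ M * (τ * (3 * τ)) := by
      refine mul_le_mul_of_nonneg_left (mul_le_mul_of_nonneg_left ?_ hτ0.le) hM.le
      linarith
    have c2 : 2 * (τ ^ 2 * Λ ^ 2 * W2) ≤ τ ^ 2 * M := by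
      have := mul_le_mul_of_nonneg_left a2 (sq_nonneg τ)
      linarith
    have c3 : 0 ≤ τ ^ 2 * M := by positivity
    linarith
  have b3 : (M * τ / 4) ^ 2 ≤ N * (M * (6 * τ ^ 2 + 2 * τ * Λ)) :=
    (pow_le_pow_left₀ (by positivity) b1 2).trans (h3.trans (mul_le_mul_of_nonneg_left b2 hN))
  have b4 : M * τ * (M * τ) ≤ M * τ * (N * (96 * τ + 32 * Λ)) := by linarith
  have b5 : M * τ ≤ N * (96 * τ + 32 * Λ) := le_of_mul_le_mul_left b4 (by positivity)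
  have b6 : c₁ * Λ ≤ 2 * K * τ := by
    have : K * (c₁ * L ^ 2) ≤ K * (2 * τ) := mul_le_mul_of_nonneg_left (hJ.trans hJτ) (by linarith)
    rw [hΛ]
    linarith
  have b7 : τ * (c₁ * M) ≤ τ * (N * (96 * c₁ + 64 * K)) := by
    have d1 := mul_le_mul_of_nonneg_left b5 hc₁.le
    have d2 := mul_le_mul_of_nonneg_left b6 hN
    linarith
  have b8 : c₁ * M ≤ N * (96 * c₁ + 64 * K) := le_of_mul_le_mul_left b7 hτ0
  rw [div_mul_eq_mul_div, div_le_iff₀ (by positivity)]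
  exact b8

/-- **Module CHQ.** -/
theorem hCHQ (h1 : StMOA) (h2 : StMOB) (hT : StTGO) (hV : StVLP) : StCHQ := by
  obtain ⟨B₁, H1⟩ := h1 (1 / 2) (by norm_num)
  obtain ⟨B₂, q₂, hq₂, H2⟩ := h2 (1 / 2) (by norm_num)
  obtain ⟨A, hA, HT⟩ := hT
  obtain ⟨c, hc, HV⟩ := hV
  obtain ⟨δ, hδ⟩ : ∃ δ : ℝ, δ = 1 / (2 * ((B₁ : ℝ) + B₂) + 2) := ⟨_, rfl⟩
  have hB₁ : (0 : ℝ) ≤ B₁ := Nat.cast_nonneg _
  have hB₂ : (0 : ℝ) ≤ B₂ := Nat.cast_nonneg _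
  have hδ0 : 0 < δ := by rw [hδ]; positivity
  have hδ1 : δ ≤ 1 := by
    rw [hδ, div_le_one (by positivity)]
    linarith
  have hδB₁ : δ * B₁ ≤ 1 / 2 := by
    rw [hδ, div_mul_eq_mul_div, div_le_iff₀ (by positivity)]
    linarith
  have hδB₂ : δ * B₂ ≤ 1 / 2 := by
    rw [hδ, div_mul_eq_mul_div, div_le_iff₀ (by positivity)]
    linarith
  refine ⟨A, δ, hA, hδ0, hδ1, max 32 q₂, le_max_left _ _, fun p P hp hP hl c₁ hc₁ => ?_⟩
  have hp32 : 32 ≤ p := (le_max_left _ _).trans hp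
  obtain ⟨J₀, H2⟩ := H2 p P ((le_max_right _ _).trans hp) hP hl
  obtain ⟨I₀, HT⟩ := HT p P hp32 hP hl (c₁ / 4) (by positivity)
  obtain ⟨K, hKd⟩ : ∃ K : ℝ, K = Real.exp A / c + 1 := ⟨_, rfl⟩
  have hKc : Real.exp A / c ≤ K := by rw [hKd]; linarith
  have hK1 : 1 ≤ K := by
    have : 0 < Real.exp A / c := by positivity
    rw [hKd]; linarith
  obtain ⟨T, hTd⟩ : ∃ T : ℝ, T = 1 + 8 * (c₁ + 1) / δ ^ 3 + 2 * I₀ / δ + 4 / δ + J₀ / c₁ + 2 / c₁ :=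
    ⟨_, rfl⟩
  have ev1 := ev_log 1 (4 * K) one_pos 2
  have ev2 := ev_log 1 (2 * K ^ 2) one_pos 4
  have ev4 := Real.tendsto_log_atTop.eventually_ge_atTop T
  obtain ⟨x₀, hx₀⟩ := eventually_atTop.1
    (((ev1.and ev2).and ev4).and (eventually_ge_atTop (1 : ℝ)))
  refine ⟨c₁ / (96 * c₁ + 64 * K), by positivity, ⌈x₀⌉₊, fun M I J a r hM hI1 hI2 hJ1 hJ2 hr1 hr2 => ?_⟩
  obtain ⟨⟨⟨e1, e2⟩, e4⟩, hM1⟩ := hx₀ (M : ℝ) (Nat.ceil_le.1 hM)
  rw [one_mul] at e1 e2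
  have hM0 : (0 : ℝ) < M := by linarith
  -- the size of the logarithm
  obtain ⟨L, hLd⟩ : ∃ L : ℝ, L = Real.log M := ⟨_, rfl⟩
  rw [← hLd] at e1 e2 e4 hJ1 hJ2
  have t1 : 0 ≤ 8 * (c₁ + 1) / δ ^ 3 := by positivity
  have t2 : 0 ≤ 2 * (I₀ : ℝ) / δ := by positivity
  have t3 : 0 ≤ 4 / δ := by positivity
  have t4 : 0 ≤ (J₀ : ℝ) / c₁ := by positivity
  have t5 : 0 ≤ 2 / c₁ := by positivity
  rw [hTd] at e4
  have hL1 : 1 ≤ L := by linarith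
  have l1 : 8 * (c₁ + 1) ≤ L * δ ^ 3 := by
    have : 8 * (c₁ + 1) / δ ^ 3 ≤ L := by linarith
    rwa [div_le_iff₀ (by positivity)] at this
  have l2 : 2 * (I₀ : ℝ) ≤ L * δ := by
    have : 2 * (I₀ : ℝ) / δ ≤ L := by linarith
    rwa [div_le_iff₀ hδ0] at this
  have l3 : 4 ≤ L * δ := by
    have : 4 / δ ≤ L := by linarith
    rwa [div_le_iff₀ hδ0] at this
  have l4 : (J₀ : ℝ) ≤ L * c₁ := by
    have : (J₀ : ℝ) / c₁ ≤ L := by linarith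
    rwa [div_le_iff₀ hc₁] at this
  have l5 : 2 ≤ L * c₁ := by
    have : 2 / c₁ ≤ L := by linarith
    rwa [div_le_iff₀ hc₁] at this
  have hLL : L ≤ L ^ 2 := by nlinarith
  have hcL : L * c₁ ≤ c₁ * L ^ 2 := by nlinarith
  -- the size of `I`
  have hMδ : (M : ℝ) ^ δ ≤ M := by
    calc (M : ℝ) ^ δ ≤ (M : ℝ) ^ (1 : ℝ) := Real.rpow_le_rpow_of_exponent_le hM1 hδ1
      _ = M := Real.rpow_one _
  have hlog2 := Real.log_two_gt_d9
  have hlog2' := Real.log_two_lt_d9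
  have hIu : (I : ℝ) ≤ 2 * L := by
    have h := Real.log_le_log (by positivity) (hI1.trans hMδ)
    rw [Real.log_pow, ← hLd] at h
    have : (I : ℝ) * (1 / 2) ≤ I * Real.log 2 :=
      mul_le_mul_of_nonneg_left (by linarith) (Nat.cast_nonneg _)
    linarith
  have hIl : L * δ ≤ I + 1 := by
    have h := Real.log_le_log (Real.rpow_pos_of_pos hM0 δ) hI2.le
    rw [Real.log_pow, Real.log_rpow hM0, ← hLd] at h
    push_cast at h
    have : ((I : ℝ) + 1) * Real.log 2 ≤ (I + 1) * 1 :=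
      mul_le_mul_of_nonneg_left (by linarith) (by positivity)
    linarith
  have hI' : L * δ / 2 ≤ I := by linarith
  have hI₀ : I₀ ≤ I := by
    have : (I₀ : ℝ) ≤ I := by linarith
    exact_mod_cast this
  have hI2' : 2 ≤ I := by
    have : (2 : ℝ) ≤ I := by linarith
    exact_mod_cast this
  have hJI : J ≤ I ^ 3 := by
    have h3 : (L * δ / 2) ^ 3 ≤ (I : ℝ) ^ 3 := pow_le_pow_left₀ (by positivity) hI' 3
    have h4 : (J : ℝ) ≤ (I : ℝ) ^ 3 := by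
      have h5 : (c₁ + 1) * L ^ 2 * 8 ≤ L * δ ^ 3 * L ^ 2 := by nlinarith [sq_nonneg L]
      have h6 : (L * δ / 2) ^ 3 = L * δ ^ 3 * L ^ 2 / 8 := by ring
      nlinarith
    exact_mod_cast h4
  have hcI : c₁ / 4 * (I : ℝ) ^ 2 ≤ J := by
    have h3 : (I : ℝ) ^ 2 ≤ (2 * L) ^ 2 := pow_le_pow_left₀ (Nat.cast_nonneg _) hIu 2
    have h4 := mul_le_mul_of_nonneg_left h3 (by positivity : 0 ≤ c₁ / 4)
    linarith
  have hτ := HT I J r hI₀ hcI hJI hr1 hr2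
  -- the number `w`
  obtain ⟨w, hw⟩ : ∃ w : ℕ, w = 2 ^ I - 1 := ⟨_, rfl⟩
  rw [← hw] at hτ ⊢
  have hw3 : 3 ≤ w := by
    have : 2 ^ 2 ≤ 2 ^ I := Nat.pow_le_pow_right (by norm_num) hI2'
    omega
  have hwle : (w : ℝ) ≤ (M : ℝ) ^ δ := by
    refine le_trans ?_ hI1
    have : w ≤ 2 ^ I := by omega
    exact_mod_cast this
  have hwB : ∀ B : ℕ, δ * B ≤ 1 / 2 → (w : ℝ) ^ B ≤ (M : ℝ) ^ (1 / 2 : ℝ) := by
    intro B hB
    calc (w : ℝ) ^ B ≤ ((M : ℝ) ^ δ) ^ B := pow_le_pow_left₀ (Nat.cast_nonneg _) hwle B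
      _ = (M : ℝ) ^ (δ * B) := by rw [← Real.rpow_natCast, ← Real.rpow_mul hM0.le]
      _ ≤ (M : ℝ) ^ (1 / 2 : ℝ) := Real.rpow_le_rpow_of_exponent_le hM1 hB
  have hw1 := hwB B₁ hδB₁
  have hw2 := hwB B₂ hδB₂
  obtain ⟨S, hS⟩ : ∃ S : ℝ, S = (M : ℝ) ^ (1 / 2 : ℝ) := ⟨_, rfl⟩
  have hS0 : 0 ≤ S := by rw [hS]; positivity
  have hSS : S * S = M := by
    rw [hS, ← Real.rpow_add hM0]
    norm_num
  rw [← hS] at e1 e2 hw1 hw2
  have hw3' : (3 : ℝ) ≤ w := by exact_mod_cast hw3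
  have hwlog : 0 < Real.log w := Real.log_pos (by linarith)
  have hlogle : Real.log w ≤ L := by
    rw [hLd]
    exact Real.log_le_log (by linarith) (hwle.trans hMδ)
  -- the weights
  obtain ⟨Λ, hΛ⟩ : ∃ Λ : ℝ, Λ = K * L ^ 2 := ⟨_, rfl⟩
  have hΛ1 : 1 ≤ Λ := by
    rw [hΛ]
    nlinarith
  have hΛV : ∀ j ∈ TT A p w P r J, 1 ≤ Λ * VV p w P a (r + P * j) := by
    intro j hj
    unfold TT at hj
    obtain ⟨-, hj6, hjA⟩ := mem_filter.1 hj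
    have h5 := HV p w P a (r + P * j) (by omega) hw3 hl (by omega)
    have h6 : c * Real.exp (-A) / L ^ 2 ≤ VV p w P a (r + P * j) := by
      refine le_trans ?_ h5
      refine div_le_div₀ (by positivity) ?_ (by positivity)
        (pow_le_pow_left₀ hwlog.le hlogle 2)
      exact mul_le_mul_of_nonneg_left (Real.exp_le_exp.2 (by linarith)) hc.le
    have h7 : (Real.exp A / c * L ^ 2) * (c * Real.exp (-A) / L ^ 2) = 1 := by
      rw [Real.exp_neg]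
      field_simp
    have h8 : Real.exp A / c * L ^ 2 ≤ Λ := by
      rw [hΛ]
      exact mul_le_mul_of_nonneg_right hKc (by positivity)
    calc (1 : ℝ) = (Real.exp A / c * L ^ 2) * (c * Real.exp (-A) / L ^ 2) := h7.symm
      _ ≤ Λ * VV p w P a (r + P * j) := mul_le_mul h8 h6 (by positivity) (by linarith)
  have hJ₀ : J₀ ≤ J := by
    have : (J₀ : ℝ) ≤ J := by linarith
    exact_mod_cast this
  have m1 := H1 A Λ p w P a r J M (by omega) (by omega) hl hΛ1 hΛV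
  have m2 := H2 A Λ J a r w M hJ₀ hr1 hr2 (by omega) hΛ1 hΛV
  have hτ1 : (1 : ℝ) ≤ ((TT A p w P r J).card : ℝ) := by linarith
  exact fin_ineq _ _ Λ S M J _ _ _ _ c₁ K L hM0 hτ1 (Nat.cast_nonneg _) hS0 hSS hc₁ hK1 hL1 hΛ
    hJ1 hτ e1 e2 hw1 hw2 m1 m2 (csq M (fun m => XX A p w P a r J m) fun m => XX_nonneg _ _ _ _ _ _ _ _)

end Pool.Agent.Helper53.LP
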